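import Pool.Agent.Helper25.LS.Defs

/-!
# LS-BI: biorthogonal system along a flag
-/

set_option autoImplicit false

namespace Pool.Agent.Helper96.LS

open Filter Topology Module Pool.Agent.Helper25.LS

noncomputable section

/-- One step: a vector outside a finite-dimensional subspace. -/
lemma step {X : Type} [NormedAddCommGroup X] [NormedSpace ℂ X] (F : Submodule ℂ X)
    [FiniteDimensional ℂ F] (w : X) (hw : w ∉ F) :
    ∃ (e : X) (es : X →L[ℂ] ℂ), ‖e‖ ≤ 1 ∧ ‖es‖ ≤ 2 ∧ (e ∈ F ⊔ Submodule.span ℂ {w}) ∧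
      (∀ y ∈ F, es y = 0) ∧ w - es w • e ∈ F ∧ es e = 1 := by
  have hc : IsClosed (F : Set X) := F.closed_of_finiteDimensional
  set x : X ⧸ F := Submodule.Quotient.mk w with hx
  have hx0 : x ≠ 0 := by
    rw [hx, Ne, Submodule.Quotient.mk_eq_zero]
    exact hw
  have hd : 0 < ‖x‖ := norm_pos_iff.2 hx0
  obtain ⟨g, hg1, hg2⟩ := exists_dual_vector ℂ x (norm_ne_zero_iff.2 hx0)
  obtain ⟨m, hm1, hm2⟩ := Submodule.Quotient.norm_mk_lt x hd
  have hdm : ‖x‖ ≤ ‖m‖ := by
    rw [← hm1]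
    exact Submodule.Quotient.norm_mk_le F m
  have hm0 : 0 < ‖m‖ := lt_of_lt_of_le hd hdm
  let q : X →L[ℂ] (X ⧸ F) := F.mkQ.mkContinuous 1 (fun y => by
    simpa using Submodule.Quotient.norm_mk_le F y)
  have hq : ∀ y, q y = Submodule.Quotient.mk y := fun y => rfl
  have hqn : ‖q‖ ≤ 1 := LinearMap.mkContinuous_norm_le _ zero_le_one _
  have hwm : w - m ∈ F := by
    rw [← Submodule.Quotient.mk_eq_zero, Submodule.Quotient.mk_sub, hm1, hx, sub_self]
  set a : ℂ := ((‖m‖ / ‖x‖ : ℝ) : ℂ) with ha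
  have hmC : ((‖m‖ : ℝ) : ℂ) ≠ 0 := by
    exact_mod_cast hm0.ne'
  have hxC : ((‖x‖ : ℝ) : ℂ) ≠ 0 := by
    exact_mod_cast hd.ne'
  refine ⟨((‖m‖ : ℂ)⁻¹) • m, a • (g.comp q), ?_, ?_, ?_, ?_, ?_, ?_⟩
  · rw [norm_smul, norm_inv, Complex.norm_real, norm_norm, inv_mul_cancel₀ hm0.ne']
  · rw [norm_smul, ha, Complex.norm_real, Real.norm_of_nonneg (by positivity)]
    have h1 : ‖g.comp q‖ ≤ 1 := by
      refine (ContinuousLinearMap.opNorm_comp_le g q).trans ?_
      rw [hg1, one_mul]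
      exact hqn
    have h2 : ‖m‖ / ‖x‖ ≤ 2 := by
      rw [div_le_iff₀ hd]
      linarith
    calc ‖m‖ / ‖x‖ * ‖g.comp q‖ ≤ 2 * 1 :=
          mul_le_mul h2 h1 (norm_nonneg _) (by norm_num)
      _ = 2 := by norm_num
  · refine Submodule.smul_mem _ _ ?_
    have : m = -(w - m) + w := by abel
    rw [this]
    exact Submodule.add_mem_sup (F.neg_mem hwm) (Submodule.mem_span_singleton_self w)
  · intro y hy
    have : (Submodule.Quotient.mk y : X ⧸ F) = 0 := (Submodule.Quotient.mk_eq_zero F).2 hy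
    simp [hq, this]
  · have h1 : (a • (g.comp q)) w = (‖m‖ : ℂ) := by
      have : g x = (‖x‖ : ℂ) := by simpa using hg2
      simp only [_root_.smul_apply, ContinuousLinearMap.comp_apply, hq, smul_eq_mul,
        ← hx, this, ha]
      push_cast
      field_simp
    rw [h1, smul_smul, mul_inv_cancel₀ hmC, one_smul]
    exact hwm
  · have : g x = (‖x‖ : ℂ) := by simpa using hg2
    simp only [_root_.smul_apply, ContinuousLinearMap.comp_apply, map_smul, hq, hm1,
      smul_eq_mul, this, ha]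
    push_cast
    field_simp

/-- BI. -/
theorem bi : S_BI := by
  intro X _ _ T F
  have key : ∀ k : ℕ, ∃ (e : X) (es : X →L[ℂ] ℂ), ‖e‖ ≤ 1 ∧ ‖es‖ ≤ 2 ∧
      e ∈ Submodule.span ℂ (F.w '' {l | l ≤ k}) ∧ (∀ l, l < k → es (F.w l) = 0) ∧
      (F.w k - es (F.w k) • e ∈ Submodule.span ℂ (F.w '' {l | l < k})) ∧
      (F.w k ≠ 0 → es e = 1) := by
    intro k
    by_cases hk : F.w k ∈ Submodule.span ℂ (F.w '' {l | l < k})
    · have h0 := (F.ind k hk).1
      refine ⟨0, 0, by simp, by simp, Submodule.zero_mem _, by simp, ?_, fun h => absurd h0 h⟩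
      simp [h0]
    · have : FiniteDimensional ℂ (Submodule.span ℂ (F.w '' {l | l < k})) :=
        FiniteDimensional.span_of_finite ℂ ((Set.finite_lt_nat k).image _)
      obtain ⟨e, es, h1, h2, h3, h4, h5, h6⟩ := step _ (F.w k) hk
      refine ⟨e, es, h1, h2, ?_, fun l hl => h4 _ (Submodule.subset_span ⟨l, hl, rfl⟩), h5,
        fun _ => h6⟩
      have h7 : Submodule.span ℂ (F.w '' {l | l < k}) ⊔ Submodule.span ℂ {F.w k} ≤
          Submodule.span ℂ (F.w '' {l | l ≤ k}) := by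
        refine sup_le (Submodule.span_mono (Set.image_mono fun l hl => ?_)) ?_
        · have h8 : l < k := hl
          exact h8.le
        · rw [Submodule.span_le]
          rintro y rfl
          exact Submodule.subset_span ⟨k, le_refl k, rfl⟩
      exact h7 h3
  choose e es h using key
  exact ⟨e, es, fun k => (h k).1, fun k => (h k).2.1, fun k => (h k).2.2.1,
    fun k l hl => (h k).2.2.2.1 l hl, fun k => (h k).2.2.2.2.1, fun k => (h k).2.2.2.2.2⟩

end

end Pool.Agent.Helper96.LS
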