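import Pool.Agent.Helper25.LS.Defs2

/-!
# LS-NH: a Hilbert sum of blocks with unbounded distances is not Hilbertian
-/

set_option autoImplicit false

namespace Pool.Agent.Helper96.LS

open Filter Topology Module Pool.Agent.Helper25.LS
open scoped ENNReal NNReal

noncomputable section

/-- Good signs. -/
lemma signs {H : Type} [NormedAddCommGroup H] [InnerProductSpace ℂ H] {ι : Type} [DecidableEq ι]
    (s : Finset ι) (h : ι → H) :
    ∃ ε : ι → ℂ, (∀ i, ‖ε i‖ = 1) ∧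
      ∑ i ∈ s, ‖h i‖ ^ 2 ≤ ‖∑ i ∈ s, ε i • h i‖ ^ 2 := by
  induction s using Finset.induction_on with
  | empty => exact ⟨fun _ => 1, by simp, by simp⟩
  | insert j s hj ih =>
    obtain ⟨ε, h1, h2⟩ := ih
    set S := ∑ i ∈ s, ε i • h i with hS
    have hpar := parallelogram_law_with_norm ℂ S (h j)
    have key : ∀ c : ℂ, ∑ i ∈ insert j s, (Function.update ε j c) i • h i = c • h j + S := by
      intro c
      rw [Finset.sum_insert hj, Function.update_self, hS]
      congr 1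
      refine Finset.sum_congr rfl fun i hi => ?_
      rw [Function.update_of_ne]
      rintro rfl
      exact hj hi
    have hn : ∀ c : ℂ, ‖c‖ = 1 → ∀ i, ‖(Function.update ε j c) i‖ = 1 := by
      intro c hc i
      by_cases hi : i = j
      · subst hi
        rw [Function.update_self, hc]
      · rw [Function.update_of_ne hi, h1]
    rw [Finset.sum_insert hj]
    by_cases hc : ‖S‖ ^ 2 + ‖h j‖ ^ 2 ≤ ‖S + h j‖ ^ 2
    · refine ⟨Function.update ε j 1, hn 1 (by simp), ?_⟩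
      rw [key, one_smul, add_comm (h j) S]
      linarith
    · refine ⟨Function.update ε j (-1), hn (-1) (by simp), ?_⟩
      rw [key, neg_one_smul]
      have : -h j + S = S - h j := by abel
      rw [this]
      push Not at hc
      nlinarith [hpar]

/-- NH. -/
theorem nh : S_NH := by
  intro t N hN hk H _ _
  refine ⟨fun Φ => ?_⟩
  set a : ℝ := ‖(Φ : lp (fun k => Blk (t k) (N k)) 2 →L[ℂ] H)‖ with ha
  set b : ℝ := ‖(Φ.symm : H →L[ℂ] lp (fun k => Blk (t k) (N k)) 2)‖ with hb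
  have ha0 : 0 ≤ a := norm_nonneg _
  have hb0 : 0 ≤ b := norm_nonneg _
  have claim : ∀ k : ℕ, (k : ℝ) ≤ a * b := by
    intro k
    refine (hk k).trans ?_
    have hpr : (2 + (t k : ℝ≥0∞)).toReal = 2 + (t k : ℝ) := by
      rw [ENNReal.toReal_add (by simp) (by simp)]
      simp
    have hp0 : 0 < (2 + (t k : ℝ≥0∞)).toReal := by
      rw [hpr]
      positivity
    let F : Blk (t k) (N k) →L[ℂ] lp (fun k => Blk (t k) (N k)) 2 :=
      lp.singleContinuousLinearMap ℂ (fun k => Blk (t k) (N k)) 2 k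
    have hF : ∀ x, ‖F x‖ = ‖x‖ := by
      intro x
      exact lp.norm_single (E := fun k => Blk (t k) (N k)) (p := 2)
        (by norm_num : (0 : ℝ≥0∞) < 2) k x
    let E : Fin (N k) → Blk (t k) (N k) := fun i => PiLp.single _ i (1 : ℂ)
    have hE : ∀ i, ‖E i‖ = 1 := by
      intro i
      simp [E]
    obtain ⟨ε, h1, h2⟩ := signs (Finset.univ : Finset (Fin (N k))) (fun i => Φ (F (E i)))
    let y : Blk (t k) (N k) := WithLp.toLp _ ε
    have hy : ∑ i, ε i • E i = y := by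
      ext j
      simp [E, y, WithLp.ofLp_sum, Finset.sum_apply, Pi.single_apply]
    have hsum : ∑ i, ε i • Φ (F (E i)) = Φ (F y) := by
      rw [← hy, map_sum, map_sum]
      simp
    rw [hsum] at h2
    have hyn : ‖y‖ = (N k : ℝ) ^ (1 / (2 + (t k : ℝ))) := by
      rw [PiLp.norm_eq_sum hp0, hpr]
      congr 1
      have : ∀ i, ‖y i‖ ^ (2 + (t k : ℝ)) = 1 := by
        intro i
        have : ‖y i‖ = 1 := h1 i
        rw [this, Real.one_rpow]
      simp [this]
    have h3 : ∀ i, (1 : ℝ) ≤ b ^ 2 * ‖Φ (F (E i))‖ ^ 2 := by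
      intro i
      have h4 : (1 : ℝ) ≤ b * ‖Φ (F (E i))‖ := by
        have h5 : ‖Φ.symm (Φ (F (E i)))‖ ≤ b * ‖Φ (F (E i))‖ :=
          ContinuousLinearMap.le_opNorm (Φ.symm : H →L[ℂ] lp (fun k => Blk (t k) (N k)) 2) _
        rw [ContinuousLinearEquiv.symm_apply_apply, hF, hE] at h5
        exact h5
      rw [← mul_pow]
      exact one_le_pow₀ h4
    have h6 : (N k : ℝ) ≤ b ^ 2 * ∑ i, ‖Φ (F (E i))‖ ^ 2 := by
      rw [Finset.mul_sum]
      calc (N k : ℝ) = ∑ _i : Fin (N k), (1 : ℝ) := by simp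
        _ ≤ _ := Finset.sum_le_sum fun i _ => h3 i
    have h7 : ‖Φ (F y)‖ ≤ a * ‖y‖ := by
      have := ContinuousLinearMap.le_opNorm (Φ : lp (fun k => Blk (t k) (N k)) 2 →L[ℂ] H) (F y)
      rw [hF] at this
      exact this
    have h8 : ‖Φ (F y)‖ ^ 2 ≤ (a * ‖y‖) ^ 2 := pow_le_pow_left₀ (norm_nonneg _) h7 2
    have hNpos : (0 : ℝ) < N k := by
      exact_mod_cast hN k
    have h9 : (N k : ℝ) ≤ (a * b) ^ 2 * ‖y‖ ^ 2 := by
      calc (N k : ℝ) ≤ b ^ 2 * ∑ i, ‖Φ (F (E i))‖ ^ 2 := h6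
        _ ≤ b ^ 2 * (a * ‖y‖) ^ 2 :=
            mul_le_mul_of_nonneg_left (h2.trans h8) (by positivity)
        _ = (a * b) ^ 2 * ‖y‖ ^ 2 := by ring
    set q : ℝ := 1 / (2 + (t k : ℝ)) with hq
    have h10 : (N k : ℝ) ^ (1 / 2 - q) * (N k : ℝ) ^ q = (N k : ℝ) ^ (1 / 2 : ℝ) := by
      rw [← Real.rpow_add hNpos]
      congr 1
      ring
    have h11 : ((N k : ℝ) ^ (1 / 2 : ℝ)) ^ 2 = N k := by
      rw [← Real.rpow_natCast, ← Real.rpow_mul hNpos.le]
      norm_num
    have h12 : 0 < (N k : ℝ) ^ q := Real.rpow_pos_of_pos hNpos _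
    have h13 : ((N k : ℝ) ^ (1 / 2 - q)) ^ 2 ≤ (a * b) ^ 2 := by
      have h14 : ((N k : ℝ) ^ (1 / 2 - q)) ^ 2 * ((N k : ℝ) ^ q) ^ 2 ≤
          (a * b) ^ 2 * ((N k : ℝ) ^ q) ^ 2 := by
        rw [← mul_pow, h10, h11]
        rw [hyn] at h9
        exact h9
      exact le_of_mul_le_mul_right h14 (by positivity)
    exact (pow_le_pow_iff_left₀ (Real.rpow_nonneg hNpos.le _) (mul_nonneg ha0 hb0)
      two_ne_zero).1 h13
  obtain ⟨k, hk'⟩ := exists_nat_gt (a * b)
  exact absurd (claim k) (not_le.2 hk')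

end

end Pool.Agent.Helper96.LS
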